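import Mathlib

set_option autoImplicit false
open Set Filter Topology
open scoped ContDiff

namespace Pool.Agent.Results.MP_4ba699_an.HopfVariantFails

/-- The space `ℝ^d` of the variable `y`. -/
abbrev Y (d : ℕ) := EuclideanSpace ℝ (Fin d)

/-- Points `(t, y)` of `ℝ^{d+1}`; the dimension of the problem is `n = d + 1`. -/
abbrev Pt (d : ℕ) := ℝ × Y d

/-- The coordinate vectors of `ℝ^{d+1}`: number `0` is the `t`-direction, number `i + 1` is the
`i`-th `y`-direction. -/
noncomputable def cvec {d : ℕ} : Fin (d + 1) → Pt d :=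
  Fin.cons (1, 0) (fun i => (0, EuclideanSpace.single i (1 : ℝ)))

/-- Partial derivative in the `i`-th coordinate direction. -/
noncomputable def pd {d : ℕ} (i : Fin (d + 1)) (f : Pt d → ℝ) (p : Pt d) : ℝ :=
  fderiv ℝ f p (cvec i)

/-- First fundamental form `δ_ij + f_i f_j` of the graph of `f` over the point `p`. -/
noncomputable def firstForm {d : ℕ} (f : Pt d → ℝ) (p : Pt d) :
    Matrix (Fin (d + 1)) (Fin (d + 1)) ℝ :=
  Matrix.of fun i j => (if i = j then 1 else 0) + pd i f p * pd j f p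

/-- Second fundamental form `f_ij / √(1 + |∇f|²)` of the graph of `f` over the point `p`, with
respect to the upward unit normal `(-∇f, 1) / √(1 + |∇f|²)`. -/
noncomputable def secondForm {d : ℕ} (f : Pt d → ℝ) (p : Pt d) :
    Matrix (Fin (d + 1)) (Fin (d + 1)) ℝ :=
  Matrix.of fun i j => pd i (pd j f) p / Real.sqrt (1 + ∑ k, pd k f p ^ 2)

/-- The principal curvatures of the graph of `f` over `p`: the roots, with multiplicity, of the
characteristic polynomial of the Weingarten matrix. -/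
noncomputable def curvatures {d : ℕ} (f : Pt d → ℝ) (p : Pt d) : Multiset ℝ :=
  ((firstForm f p)⁻¹ * secondForm f p).charpoly.roots

/-- The `m`-th elementary symmetric function of the principal curvatures. -/
noncomputable def sigma {d : ℕ} (m : ℕ) (f : Pt d → ℝ) (p : Pt d) : ℝ :=
  (curvatures f p).esymm m

/-- The domain `Ω`. -/
def Omega (d : ℕ) : Set (Pt d) := {p | 0 < p.1 ∧ p.1 < 1 ∧ ‖p.2‖ < 1}

/-- The cylinder `{|t| < 1, |y| < 1}`. -/
def Cyl (d : ℕ) : Set (Pt d) := {p | |p.1| < 1 ∧ ‖p.2‖ < 1}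

/-- The reflected gluing `w` of `u` and `v`. -/
noncomputable def glue {d : ℕ} (u v : Pt d → ℝ) (p : Pt d) : ℝ :=
  if 0 ≤ p.1 then v p else u (-p.1, p.2)

/-- All hypotheses of the problem on `u, v`, for the dimension `n = d + 1` and the index `m`,
with the comparison condition `(C_m)` (required for all `t ∈ [0, 1]`) and the gluing
condition `(G)`. -/
structure Hyp (d m : ℕ) (u v : Pt d → ℝ) : Prop where
  smooth_u : ∃ O : Set (Pt d), IsOpen O ∧ closure (Omega d) ⊆ O ∧ ContDiffOn ℝ ∞ u O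
  smooth_v : ∃ O : Set (Pt d), IsOpen O ∧ closure (Omega d) ⊆ O ∧ ContDiffOn ℝ ∞ v O
  le : ∀ p ∈ Omega d, v p ≤ u p
  nonneg : ∀ p ∈ Omega d, 0 ≤ v p
  boundary : ∀ y : Y d, ‖y‖ < 1 → u (0, y) = v (0, y)
  u_zero : u (0, 0) = 0
  v_zero : v (0, 0) = 0
  dt_zero : pd 0 u (0, 0) = 0
  dt_pos : ∀ p ∈ Omega d, 0 < pd 0 u p
  comparison : ∀ (t s : ℝ) (y : Y d), 0 ≤ t → t ≤ 1 → 0 < s → s < 1 → ‖y‖ < 1 →
    u (t, y) = v (s, y) → sigma m u (t, y) ≤ sigma m v (s, y)
  gluing : ContDiffOn ℝ ∞ (glue u v) (Cyl d)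

/-! ### all `n` principal curvatures are real -/

open Matrix in
theorem vv_mul {n : ℕ} (q : Fin n → ℝ) :
    vecMulVec q q * vecMulVec q q = (q ⬝ᵥ q) • vecMulVec q q := by
  rw [vecMulVec_mul_vecMulVec]
  ext i j
  simp only [vecMulVec_apply, Matrix.smul_apply, Pi.smul_apply, smul_eq_mul]
  ring

open Matrix in
theorem card_roots_aux {n : ℕ} (q : Fin n → ℝ) (H : Matrix (Fin n) (Fin n) ℝ) (hH : Hᵀ = H) :
    Multiset.card (((1 + vecMulVec q q)⁻¹ * H).charpoly.roots) = n := by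
  set W : ℝ := Real.sqrt (1 + q ⬝ᵥ q) with hW
  have hq : 0 ≤ q ⬝ᵥ q := by
    rw [dotProduct]; exact Finset.sum_nonneg fun i _ => mul_self_nonneg _
  have hW2 : W ^ 2 = 1 + q ⬝ᵥ q := Real.sq_sqrt (by linarith)
  have hWp : 0 < W := Real.sqrt_pos.2 (by linarith)
  set N : Matrix (Fin n) (Fin n) ℝ := vecMulVec q q with hN
  set c : ℝ := 1 / (W * (1 + W)) with hc
  set S : Matrix (Fin n) (Fin n) ℝ := 1 - c • N with hS
  have hNN : N * N = (W ^ 2 - 1) • N := by rw [hN, vv_mul, hW2]; congr 1; ring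
  have hSS : S * S = 1 - (1 / W ^ 2) • N := by
    rw [hS, sub_mul, mul_sub, mul_sub, smul_mul_smul_comm, hNN, one_mul, mul_one, one_mul,
      smul_smul, sub_sub]
    have e : c + c - c * c * (W ^ 2 - 1) = 1 / W ^ 2 := by
      rw [hc]; field_simp; ring
    rw [← e]
    module
  have hinv : (1 + N)⁻¹ = S * S := by
    apply Matrix.inv_eq_right_inv
    rw [hSS, add_mul, one_mul, mul_sub, mul_one, mul_smul_comm, hNN, smul_smul]
    have e : (1 / W ^ 2) * (W ^ 2 - 1) = 1 - 1 / W ^ 2 := by field_simp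
    rw [e]
    module
  have hSt : Sᵀ = S := by
    rw [hS, transpose_sub, transpose_one, transpose_smul, hN, transpose_vecMulVec]
  have hherm : (S * H * S).IsHermitian := by
    rw [Matrix.IsHermitian, conjTranspose_eq_transpose_of_trivial, transpose_mul, transpose_mul,
      hSt, hH, mul_assoc]
  rw [hinv, mul_assoc, charpoly_mul_comm, hherm.roots_charpoly_eq_eigenvalues]
  simp

/-- For a function of class `C²` the multiset of principal curvatures has `n = d + 1` elements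
(all roots of the characteristic polynomial are real). -/
theorem card_curvatures {d : ℕ} {f : Pt d → ℝ} {p : Pt d} (hf : ContDiffAt ℝ 2 f p) :
    Multiset.card (curvatures f p) = d + 1 := by
  have h1 : firstForm f p = 1 + Matrix.vecMulVec (fun i => pd i f p) (fun i => pd i f p) := by
    ext i j
    simp [firstForm, Matrix.vecMulVec_apply, Matrix.one_apply]
  have h2 : (secondForm f p).transpose = secondForm f p := by
    have hd : DifferentiableAt ℝ (fderiv ℝ f) p :=
      (hf.fderiv_right (m := 1) (by norm_num)).differentiableAt (by norm_num)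
    have h3 : ∀ i j : Fin (d + 1), pd i (pd j f) p = fderiv ℝ (fderiv ℝ f) p (cvec i) (cvec j) := by
      intro i j
      have h4 : pd j f = fun q => fderiv ℝ f q (cvec j) := rfl
      rw [pd, h4, fderiv_clm_apply hd (by fun_prop)]
      simp
    ext i j
    simp only [secondForm, Matrix.transpose_apply, Matrix.of_apply, h3]
    rw [(hf.isSymmSndFDerivAt (by simp)).eq]
  rw [curvatures, h1]
  exact card_roots_aux _ _ h2

/-! ### a flat convex function of one variable -/

/-- first primitive -/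
noncomputable def G1 (t : ℝ) : ℝ := ∫ s in (0 : ℝ)..t, expNegInvGlue s

/-- second primitive -/
noncomputable def EE (t : ℝ) : ℝ := ∫ s in (0 : ℝ)..t, G1 s

theorem g_cont : Continuous expNegInvGlue := expNegInvGlue.contDiff (n := 0).continuous

theorem hasDerivAt_G1 (t : ℝ) : HasDerivAt G1 (expNegInvGlue t) t :=
  intervalIntegral.integral_hasDerivAt_right (g_cont.intervalIntegrable _ _)
    (g_cont.stronglyMeasurableAtFilter _ _) g_cont.continuousAt

theorem G1_cont : Continuous G1 := continuous_iff_continuousAt.2 fun t =>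
  (hasDerivAt_G1 t).continuousAt

theorem hasDerivAt_EE (t : ℝ) : HasDerivAt EE (G1 t) t :=
  intervalIntegral.integral_hasDerivAt_right (G1_cont.intervalIntegrable _ _)
    (G1_cont.stronglyMeasurableAtFilter _ _) G1_cont.continuousAt

theorem G1_smooth : ContDiff ℝ ∞ G1 := by
  rw [contDiff_infty_iff_deriv]
  refine ⟨fun t => (hasDerivAt_G1 t).differentiableAt, ?_⟩
  rw [funext fun t => (hasDerivAt_G1 t).deriv]
  exact expNegInvGlue.contDiff

theorem EE_smooth : ContDiff ℝ ∞ EE := by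
  rw [contDiff_infty_iff_deriv]
  refine ⟨fun t => (hasDerivAt_EE t).differentiableAt, ?_⟩
  rw [funext fun t => (hasDerivAt_EE t).deriv]
  exact G1_smooth

theorem G1_nonpos {t : ℝ} (ht : t ≤ 0) : G1 t = 0 := by
  rw [G1, intervalIntegral.integral_symm]
  have : ∫ s in t..0, expNegInvGlue s = ∫ s in t..0, (0 : ℝ) := by
    refine intervalIntegral.integral_congr fun s hs => ?_
    rw [uIcc_of_le ht] at hs
    exact expNegInvGlue.zero_of_nonpos hs.2
  rw [this]; simp

theorem EE_nonpos {t : ℝ} (ht : t ≤ 0) : EE t = 0 := by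
  rw [EE, intervalIntegral.integral_symm]
  have : ∫ s in t..0, G1 s = ∫ s in t..0, (0 : ℝ) := by
    refine intervalIntegral.integral_congr fun s hs => ?_
    rw [uIcc_of_le ht] at hs
    exact G1_nonpos hs.2
  rw [this]; simp

theorem G1_pos {t : ℝ} (ht : 0 < t) : 0 < G1 t :=
  intervalIntegral.intervalIntegral_pos_of_pos_on (g_cont.intervalIntegrable _ _)
    (fun _ hx => expNegInvGlue.pos_of_pos hx.1) ht

theorem EE_pos {t : ℝ} (ht : 0 < t) : 0 < EE t :=
  intervalIntegral.intervalIntegral_pos_of_pos_on (G1_cont.intervalIntegrable _ _)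
    (fun _ hx => G1_pos hx.1) ht

theorem G1_mono : Monotone G1 :=
  monotone_of_deriv_nonneg (fun t => (hasDerivAt_G1 t).differentiableAt) fun t => by
    rw [(hasDerivAt_G1 t).deriv]; exact expNegInvGlue.nonneg t

theorem EE_convex : ConvexOn ℝ univ EE := by
  refine Monotone.convexOn_univ_of_deriv (fun t => (hasDerivAt_EE t).differentiableAt) ?_
  rw [funext fun t => (hasDerivAt_EE t).deriv]
  exact G1_mono

theorem EE_nonneg (t : ℝ) : 0 ≤ EE t := by
  rcases le_or_gt t 0 with h | h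
  · rw [EE_nonpos h]
  · exact (EE_pos h).le

/-! ### functions with vanishing second-order jet -/

/-- the second-order jet of `F` at `p` vanishes, up to the constant term -/
def Jet0 {d : ℕ} (F : Pt d → ℝ) (p : Pt d) : Prop :=
  ContDiffAt ℝ 2 F p ∧ fderiv ℝ F p = 0 ∧ fderiv ℝ (fderiv ℝ F) p = 0

theorem ContDiffAt.diff_fderiv {d : ℕ} {F : Pt d → ℝ} {p : Pt d} (h : ContDiffAt ℝ 2 F p) :
    DifferentiableAt ℝ (fderiv ℝ F) p :=
  (h.fderiv_right (m := 1) (by norm_num)).differentiableAt (by norm_num)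

theorem ContDiffAt.ev_diff {d : ℕ} {F : Pt d → ℝ} {p : Pt d} (h : ContDiffAt ℝ 2 F p) :
    ∀ᶠ q in 𝓝 p, DifferentiableAt ℝ F q := by
  filter_upwards [h.eventually (by simp)] with q hq
  exact hq.differentiableAt (by norm_num)

theorem Jet0.pd_eq {d : ℕ} {F : Pt d → ℝ} {p : Pt d} (h : Jet0 F p) (i : Fin (d + 1)) :
    pd i F p = 0 := by
  rw [pd, h.2.1]; rfl

theorem Jet0.pd_pd_eq {d : ℕ} {F : Pt d → ℝ} {p : Pt d} (h : Jet0 F p) (i j : Fin (d + 1)) :
    pd i (pd j F) p = 0 := by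
  have h1 : pd j F = fun q => fderiv ℝ F q (cvec j) := rfl
  rw [pd, h1, fderiv_clm_apply (ContDiffAt.diff_fderiv h.1) (by fun_prop), h.2.2]
  simp

theorem Jet0.add {d : ℕ} {F G : Pt d → ℝ} {p : Pt d} (hF : Jet0 F p) (hG : Jet0 G p) :
    Jet0 (fun q => F q + G q) p := by
  refine ⟨hF.1.add hG.1, ?_, ?_⟩
  · rw [fderiv_fun_add (hF.1.differentiableAt (by norm_num))
      (hG.1.differentiableAt (by norm_num)), hF.2.1, hG.2.1, add_zero]
  · have h : fderiv ℝ (fun q => F q + G q) =ᶠ[𝓝 p] fun q => fderiv ℝ F q + fderiv ℝ G q := by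
      filter_upwards [ContDiffAt.ev_diff hF.1, ContDiffAt.ev_diff hG.1] with q h1 h2
      rw [fderiv_fun_add h1 h2]
    rw [h.fderiv_eq, fderiv_fun_add (ContDiffAt.diff_fderiv hF.1) (ContDiffAt.diff_fderiv hG.1),
      hF.2.2, hG.2.2, add_zero]

theorem jet0_mul {d : ℕ} {A B : Pt d → ℝ} {p : Pt d} (hA : ContDiffAt ℝ 2 A p)
    (hB : ContDiffAt ℝ 2 B p) (hA0 : A p = 0) (hB0 : B p = 0) (hA1 : fderiv ℝ A p = 0)
    (hB1 : fderiv ℝ B p = 0) : Jet0 (fun q => A q * B q) p := by
  refine ⟨hA.mul hB, ?_, ?_⟩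
  · rw [fderiv_fun_mul (hA.differentiableAt (by norm_num)) (hB.differentiableAt (by norm_num)),
      hA1, hB1]
    simp
  · have h : fderiv ℝ (fun q => A q * B q) =ᶠ[𝓝 p]
        fun q => A q • fderiv ℝ B q + B q • fderiv ℝ A q := by
      filter_upwards [ContDiffAt.ev_diff hA, ContDiffAt.ev_diff hB] with q h1 h2
      rw [fderiv_fun_mul h1 h2]
    have dA := hA.differentiableAt (n := 2) (by norm_num)
    have dB := hB.differentiableAt (n := 2) (by norm_num)
    have h3 : HasFDerivAt (fun q => A q • fderiv ℝ B q + B q • fderiv ℝ A q) _ p :=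
      (dA.hasFDerivAt.smul (ContDiffAt.diff_fderiv hB).hasFDerivAt).add
        (dB.hasFDerivAt.smul (ContDiffAt.diff_fderiv hA).hasFDerivAt)
    rw [h.fderiv_eq, h3.fderiv, hA0, hB0, hA1, hB1]
    simp

theorem fderiv_zero_of_nonneg {d : ℕ} {A : Pt d → ℝ} {p : Pt d} (h : ∀ᶠ q in 𝓝 p, 0 ≤ A q)
    (h0 : A p = 0) : fderiv ℝ A p = 0 := by
  have : IsLocalMin A p := by
    filter_upwards [h] with q hq
    rw [h0]; exact hq
  exact this.fderiv_eq_zero

theorem jet0_EE {d : ℕ} {p : Pt d} (hp : p.1 = 0) : Jet0 (fun q : Pt d => EE q.1) p := by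
  have h1 : ∀ q : Pt d, HasFDerivAt (fun q : Pt d => EE q.1)
      (G1 q.1 • ContinuousLinearMap.fst ℝ ℝ (Y d)) q := fun q =>
    (hasDerivAt_EE q.1).comp_hasFDerivAt q hasFDerivAt_fst
  have h2 : fderiv ℝ (fun q : Pt d => EE q.1) =
      fun q => G1 q.1 • ContinuousLinearMap.fst ℝ ℝ (Y d) := funext fun q => (h1 q).fderiv
  have h3 : HasFDerivAt (fun q : Pt d => G1 q.1)
      (expNegInvGlue p.1 • ContinuousLinearMap.fst ℝ ℝ (Y d)) p :=
    (hasDerivAt_G1 p.1).comp_hasFDerivAt p hasFDerivAt_fst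
  refine ⟨?_, ?_, ?_⟩
  · exact ((EE_smooth.comp contDiff_fst).of_le (by norm_cast)).contDiffAt
  · rw [h2]
    simp only
    rw [hp, G1_nonpos le_rfl, zero_smul]
  · have h4 : HasFDerivAt (fun q : Pt d => G1 q.1 • ContinuousLinearMap.fst ℝ ℝ (Y d)) _ p :=
      h3.smul_const (ContinuousLinearMap.fst ℝ ℝ (Y d))
    rw [h2, h4.fderiv, hp, expNegInvGlue.zero_of_nonpos le_rfl]
    simp

/-! ### the functions -/

/-- the function `v` -/
noncomputable def vv {d : ℕ} (p : Pt d) : ℝ := ‖p.2‖ ^ 2 * (‖p.2‖ ^ 2 / (2 + p.1) ^ 3)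

/-- the function `u` -/
noncomputable def uu {d : ℕ} (p : Pt d) : ℝ :=
  ‖p.2‖ ^ 2 * (‖p.2‖ ^ 2 / (2 - p.1) ^ 3) + EE p.1

theorem smooth_nsq {d : ℕ} : ContDiff ℝ ∞ (fun p : Pt d => ‖p.2‖ ^ 2) :=
  contDiff_snd.norm_sq ℝ

theorem smooth_vv {d : ℕ} : ContDiffOn ℝ ∞ (vv (d := d)) {p | -2 < p.1} := by
  refine smooth_nsq.contDiffOn.mul (smooth_nsq.contDiffOn.div ?_ ?_)
  · exact ((contDiff_const.add contDiff_fst).pow 3).contDiffOn
  · intro p hp
    have : -2 < p.1 := hp
    have h : (0 : ℝ) < 2 + p.1 := by linarith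
    positivity

theorem smooth_uu {d : ℕ} : ContDiffOn ℝ ∞ (uu (d := d)) {p | p.1 < 2} := by
  refine ContDiffOn.add (smooth_nsq.contDiffOn.mul (smooth_nsq.contDiffOn.div ?_ ?_)) ?_
  · exact ((contDiff_const.sub contDiff_fst).pow 3).contDiffOn
  · intro p hp
    have : p.1 < 2 := hp
    have h : (0 : ℝ) < 2 - p.1 := by linarith
    positivity
  · exact (EE_smooth.comp contDiff_fst).contDiffOn

theorem closure_Omega {d : ℕ} {p : Pt d} (hp : p ∈ closure (Omega d)) :
    0 ≤ p.1 ∧ p.1 ≤ 1 ∧ ‖p.2‖ ≤ 1 := by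
  have hc : IsClosed {p : Pt d | 0 ≤ p.1 ∧ p.1 ≤ 1 ∧ ‖p.2‖ ≤ 1} := by
    refine (isClosed_le continuous_const continuous_fst).inter
      ((isClosed_le continuous_fst continuous_const).inter
        (isClosed_le continuous_snd.norm continuous_const))
  have hs : Omega d ⊆ {p : Pt d | 0 ≤ p.1 ∧ p.1 ≤ 1 ∧ ‖p.2‖ ≤ 1} := fun q hq =>
    ⟨hq.1.le, hq.2.1.le, hq.2.2.le⟩
  exact closure_minimal hs hc hp

theorem jet0_vv {d : ℕ} {s : ℝ} (hs : -2 < s) : Jet0 (vv (d := d)) (s, 0) := by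
  have hopen : IsOpen {p : Pt d | -2 < p.1} := isOpen_lt continuous_const continuous_fst
  have hmem : ((s, 0) : Pt d) ∈ {p : Pt d | -2 < p.1} := hs
  refine jet0_mul (A := fun p : Pt d => ‖p.2‖ ^ 2)
    (B := fun p : Pt d => ‖p.2‖ ^ 2 / (2 + p.1) ^ 3) ?_ ?_ (by simp) (by simp) ?_ ?_
  · exact (smooth_nsq.of_le (by norm_cast)).contDiffAt
  · refine (ContDiffAt.div (n := ∞) smooth_nsq.contDiffAt ?_ ?_).of_le (by norm_cast)
    · exact ((contDiff_const.add contDiff_fst).pow 3).contDiffAt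
    · have h : (0 : ℝ) < 2 + s := by linarith
      show (2 + s) ^ 3 ≠ 0
      positivity
  · exact fderiv_zero_of_nonneg (Eventually.of_forall fun q => by positivity) (by simp)
  · refine fderiv_zero_of_nonneg ?_ (by simp)
    filter_upwards [hopen.mem_nhds hmem] with q hq
    have : -2 < q.1 := hq
    have h : (0 : ℝ) < 2 + q.1 := by linarith
    positivity

theorem jet0_uu {d : ℕ} : Jet0 (uu (d := d)) (0, 0) := by
  have hopen : IsOpen {p : Pt d | p.1 < 2} := isOpen_lt continuous_fst continuous_const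
  have hmem : ((0, 0) : Pt d) ∈ {p : Pt d | p.1 < 2} := by
    show (0 : ℝ) < 2
    norm_num
  refine Jet0.add ?_ (jet0_EE rfl)
  refine jet0_mul (A := fun p : Pt d => ‖p.2‖ ^ 2)
    (B := fun p : Pt d => ‖p.2‖ ^ 2 / (2 - p.1) ^ 3) ?_ ?_ (by simp) (by simp) ?_ ?_
  · exact (smooth_nsq.of_le (by norm_cast)).contDiffAt
  · refine (ContDiffAt.div (n := ∞) smooth_nsq.contDiffAt ?_ ?_).of_le (by norm_cast)
    · exact ((contDiff_const.sub contDiff_fst).pow 3).contDiffAt
    · show (2 - (0 : ℝ)) ^ 3 ≠ 0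
      norm_num
  · exact fderiv_zero_of_nonneg (Eventually.of_forall fun q => by positivity) (by simp)
  · refine fderiv_zero_of_nonneg ?_ (by simp)
    filter_upwards [hopen.mem_nhds hmem] with q hq
    have : q.1 < 2 := hq
    have h : (0 : ℝ) < 2 - q.1 := by linarith
    positivity

theorem sigma_eq {d : ℕ} {F G : Pt d → ℝ} {p q : Pt d} (hF : Jet0 F p) (hG : Jet0 G q) (m : ℕ) :
    sigma m F p = sigma m G q := by
  have h1 : firstForm F p = firstForm G q := by
    ext i j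
    simp only [firstForm, Matrix.of_apply, hF.pd_eq, hG.pd_eq]
  have h2 : secondForm F p = secondForm G q := by
    ext i j
    simp only [secondForm, Matrix.of_apply, hF.pd_pd_eq, hG.pd_pd_eq, zero_div]
  rw [sigma, sigma, curvatures, curvatures, h1, h2]

theorem glue_eq {d : ℕ} (p : Pt d) : glue uu vv p = vv p + EE (-p.1) := by
  rw [glue]
  split_ifs with h
  · rw [EE_nonpos (by linarith), add_zero]
  · simp only [uu, vv, sub_neg_eq_add]

theorem pd0_uu {d : ℕ} {p : Pt d} (hp : p.1 < 2) :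
    pd 0 uu p = ‖p.2‖ ^ 2 * (‖p.2‖ ^ 2 * (3 / (2 - p.1) ^ 4)) + G1 p.1 := by
  have hopen : IsOpen {p : Pt d | p.1 < 2} := isOpen_lt continuous_fst continuous_const
  have h1 : HasFDerivAt uu (fderiv ℝ uu p) p :=
    ((smooth_uu.contDiffAt (hopen.mem_nhds hp)).differentiableAt (by simp)).hasFDerivAt
  have h2 : HasDerivAt (fun τ : ℝ => ((τ, p.2) : Pt d)) (1, 0) p.1 :=
    (hasDerivAt_id p.1).prodMk (hasDerivAt_const p.1 p.2)
  have h3 : HasDerivAt (fun τ : ℝ => uu ((τ, p.2) : Pt d)) (fderiv ℝ uu p (1, 0)) p.1 :=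
    HasFDerivAt.comp_hasDerivAt (l := uu) (l' := fderiv ℝ uu p)
      (f := fun τ : ℝ => ((τ, p.2) : Pt d)) p.1 h1 h2
  have hne : (2 - p.1) ≠ 0 := by
    have : (0 : ℝ) < 2 - p.1 := by linarith
    exact this.ne'
  have h4 : HasDerivAt (fun τ : ℝ => uu ((τ, p.2) : Pt d))
      (‖p.2‖ ^ 2 * (‖p.2‖ ^ 2 * (3 / (2 - p.1) ^ 4)) + G1 p.1) p.1 := by
    have h5 : HasDerivAt (fun τ : ℝ => (2 - τ) ^ 3) (3 * (2 - p.1) ^ 2 * (-1)) p.1 := by
      have := ((hasDerivAt_id p.1).const_sub 2).fun_pow 3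
      simpa using this
    have h6 := (h5.inv (pow_ne_zero 3 hne)).const_mul (‖p.2‖ ^ 2)
    have h7 := (h6.const_mul (‖p.2‖ ^ 2)).add (hasDerivAt_EE p.1)
    refine (h7.congr_of_eventuallyEq (Eventually.of_forall fun τ => ?_)).congr_deriv ?_
    · simp only [uu, Pi.add_apply, Pi.inv_apply]
      rw [div_eq_mul_inv]
    · field_simp
  rw [pd]
  exact h3.unique h4

theorem convex_vv {d : ℕ} : ConvexOn ℝ (Cyl d) (vv (d := d)) := by
  have hcyl : Convex ℝ (Cyl d) := by
    intro p hp q hq a b ha hb hab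
    refine ⟨?_, ?_⟩
    · have h := (convex_ball (0 : ℝ) 1) (x := p.1) (by simpa [Real.norm_eq_abs] using hp.1)
        (y := q.1) (by simpa [Real.norm_eq_abs] using hq.1) ha hb hab
      simpa [Real.norm_eq_abs] using h
    · have h := (convex_ball (0 : Y d) 1) (x := p.2) (by simpa using hp.2)
        (y := q.2) (by simpa using hq.2) ha hb hab
      simpa using h
  refine ⟨hcyl, ?_⟩
  intro p hp q hq a b ha hb hab
  have hp1 : (0 : ℝ) < 2 + p.1 := by have := (abs_lt.1 hp.1).1; linarith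
  have hq1 : (0 : ℝ) < 2 + q.1 := by have := (abs_lt.1 hq.1).1; linarith
  set P := 2 + p.1 with hP
  set Q := 2 + q.1 with hQ
  have hT : 0 < a * P + b * Q := by
    rcases ha.eq_or_lt with h | h
    · have : b = 1 := by linarith
      rw [← h, this]; linarith
    · have := mul_pos h hp1
      have := mul_nonneg hb hq1.le
      linarith
  have hTe : 2 + (a • p + b • q).1 = a * P + b * Q := by
    simp only [Prod.fst_add, Prod.smul_fst, smul_eq_mul, hP, hQ]
    linear_combination (-2 : ℝ) * hab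
  have hvv : ∀ r : Pt d, vv r = ‖r.2‖ ^ 4 / (2 + r.1) ^ 3 := by
    intro r; simp only [vv]; ring
  rw [hvv, hvv, hvv, hTe, smul_eq_mul, smul_eq_mul]
  have hn : ‖(a • p + b • q).2‖ ≤ a * ‖p.2‖ + b * ‖q.2‖ := by
    have h1 : (a • p + b • q).2 = a • p.2 + b • q.2 := rfl
    rw [h1]
    refine (norm_add_le _ _).trans ?_
    rw [norm_smul, norm_smul, Real.norm_eq_abs, Real.norm_eq_abs, abs_of_nonneg ha,
      abs_of_nonneg hb]
  have hm1 : ‖p.2‖ / P ∈ Ici (0 : ℝ) := by
    show 0 ≤ ‖p.2‖ / P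
    positivity
  have hm2 : ‖q.2‖ / Q ∈ Ici (0 : ℝ) := by
    show 0 ≤ ‖q.2‖ / Q
    positivity
  have hconv := (convexOn_pow (𝕜 := ℝ) 4).2 hm1 hm2
    (show 0 ≤ a * P / (a * P + b * Q) by positivity)
    (show 0 ≤ b * Q / (a * P + b * Q) by positivity)
    (by field_simp)
  simp only [smul_eq_mul] at hconv
  have h1 : a * P / (a * P + b * Q) * (‖p.2‖ / P) + b * Q / (a * P + b * Q) * (‖q.2‖ / Q) =
      (a * ‖p.2‖ + b * ‖q.2‖) / (a * P + b * Q) := by
    field_simp
  rw [h1] at hconv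
  have h2 : ‖(a • p + b • q).2‖ ^ 4 / (a * P + b * Q) ^ 3 ≤
      (a * P + b * Q) * ((a * ‖p.2‖ + b * ‖q.2‖) / (a * P + b * Q)) ^ 4 := by
    have h3 : (a * P + b * Q) * ((a * ‖p.2‖ + b * ‖q.2‖) / (a * P + b * Q)) ^ 4 =
        (a * ‖p.2‖ + b * ‖q.2‖) ^ 4 / (a * P + b * Q) ^ 3 := by
      field_simp
    rw [h3]
    gcongr
  refine h2.trans ((mul_le_mul_of_nonneg_left hconv hT.le).trans (le_of_eq ?_))
  rw [← hP, ← hQ]
  field_simp

theorem convex_glue {d : ℕ} : ConvexOn ℝ (Cyl d) (glue (uu (d := d)) vv) := by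
  have h1 : ConvexOn ℝ (Cyl d) (fun p : Pt d => EE (-p.1)) := by
    have h2 := EE_convex.comp_linearMap (-(LinearMap.fst ℝ ℝ (Y d)))
    rw [preimage_univ] at h2
    exact h2.subset (subset_univ _) convex_vv.1
  have h3 := convex_vv.add h1
  have h4 : glue (uu (d := d)) vv = vv + fun p : Pt d => EE (-p.1) := by
    funext p; exact glue_eq p
  rw [h4]
  exact h3

theorem hyp {d m : ℕ} : Hyp d m uu vv where
  smooth_u := ⟨{p | p.1 < 2}, isOpen_lt continuous_fst continuous_const, fun p hp => by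
    have := closure_Omega hp
    show p.1 < 2
    linarith [this.2.1], smooth_uu⟩
  smooth_v := ⟨{p | -2 < p.1}, isOpen_lt continuous_const continuous_fst, fun p hp => by
    have := closure_Omega hp
    show -2 < p.1
    linarith [this.1], smooth_vv⟩
  le := by
    intro p hp
    have h1 : 0 < p.1 := hp.1
    have h2 : p.1 < 1 := hp.2.1
    have h3 : (0 : ℝ) < 2 - p.1 := by linarith
    have h4 : ‖p.2‖ ^ 2 / (2 + p.1) ^ 3 ≤ ‖p.2‖ ^ 2 / (2 - p.1) ^ 3 := by
      gcongr
      linarith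
    have h5 := mul_le_mul_of_nonneg_left h4 (sq_nonneg ‖p.2‖)
    have h6 := EE_nonneg p.1
    simp only [vv, uu]
    linarith
  nonneg := by
    intro p hp
    have h1 : 0 < p.1 := hp.1
    simp only [vv]
    positivity
  boundary := by
    intro y _
    simp only [vv, uu, add_zero, sub_zero, EE_nonpos le_rfl]
  u_zero := by simp [uu, EE_nonpos]
  v_zero := by simp [vv]
  dt_zero := jet0_uu.pd_eq 0
  dt_pos := by
    intro p hp
    rw [pd0_uu (by linarith [hp.2.1])]
    have h1 := G1_pos hp.1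
    have h2 : p.1 < 1 := hp.2.1
    have h3 : (0 : ℝ) < 2 - p.1 := by linarith
    positivity
  comparison := by
    intro t s y ht ht1 hs hs1 hy heq
    simp only [uu, vv] at heq
    have h1 : (0 : ℝ) < 2 - t := by linarith
    have h2 : ((2 : ℝ) + s) ^ 3 > (2 - t) ^ 3 := by
      have : 2 - t < 2 + s := by linarith
      gcongr
    have hy0 : y = 0 := by
      by_contra hne
      have hyp : 0 < ‖y‖ := norm_pos_iff.2 hne
      have h3 : ‖y‖ ^ 2 / (2 + s) ^ 3 < ‖y‖ ^ 2 / (2 - t) ^ 3 := by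
        gcongr
      have h4 := mul_lt_mul_of_pos_left h3 (by positivity : 0 < ‖y‖ ^ 2)
      have h5 := EE_nonneg t
      linarith
    have ht0 : t = 0 := by
      rcases ht.eq_or_lt with h | h
      · exact h.symm
      · exfalso
        rw [hy0] at heq
        simp at heq
        have := EE_pos h
        linarith
    rw [hy0, ht0]
    exact (sigma_eq jet0_uu (jet0_vv (by linarith)) m).le
  gluing := by
    have h1 : glue (uu (d := d)) vv = fun p => vv p + EE (-p.1) := funext glue_eq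
    rw [h1]
    refine ContDiffOn.add (smooth_vv.mono fun p hp => ?_) ?_
    · have := (abs_lt.1 hp.1).1
      show -2 < p.1
      linarith
    · exact (EE_smooth.comp contDiff_fst.neg).contDiffOn

/-- In every dimension `n = d + 1 ≥ 2` there are `u, v` which satisfy all the hypotheses of the
problem simultaneously for all `1 ≤ m ≤ n`, including the comparison condition `(C_m)` and the
gluing condition `(G)`, with a convex glued function `w`, but such that neither `u ≡ v` nor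
`v ≡ 0` near `(0,0)`. -/
theorem result (d : ℕ) (hd : 1 ≤ d) :
    ∃ u v : Pt d → ℝ, (∀ m : ℕ, 1 ≤ m → m ≤ d + 1 → Hyp d m u v) ∧
      ConvexOn ℝ (Cyl d) (glue u v) ∧
      (¬ ∀ᶠ p in 𝓝[closure (Omega d)] (0 : Pt d), u p = v p) ∧
      (¬ ∀ᶠ p in 𝓝[closure (Omega d)] (0 : Pt d), v p = 0) := by
  refine ⟨uu, vv, fun m _ _ => hyp, convex_glue, ?_, ?_⟩
  · intro h
    have h1 : Tendsto (fun t : ℝ => ((t, 0) : Pt d)) (𝓝[>] 0) (𝓝[closure (Omega d)] 0) := by
      refine tendsto_nhdsWithin_iff.2 ⟨?_, ?_⟩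
      · have : Tendsto (fun t : ℝ => ((t, 0) : Pt d)) (𝓝 0) (𝓝 (0, 0)) :=
          Continuous.tendsto (by fun_prop) 0
        exact this.mono_left nhdsWithin_le_nhds
      · filter_upwards [Ioo_mem_nhdsGT (zero_lt_one' ℝ)] with t ht
        exact subset_closure ⟨ht.1, ht.2, by simp⟩
    obtain ⟨t, ht1, ht2⟩ := ((h1.eventually h).and self_mem_nhdsWithin).exists
    have ht3 : (0 : ℝ) < t := ht2
    simp only [uu, vv] at ht1
    simp at ht1
    exact (EE_pos ht3).ne' ht1
  · intro h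
    set e : Y d := EuclideanSpace.single (⟨0, hd⟩ : Fin d) (1 : ℝ) with he
    have hen : ‖e‖ = 1 := by simp [he]
    have h1 : Tendsto (fun t : ℝ => ((t, t • e) : Pt d)) (𝓝[>] 0) (𝓝[closure (Omega d)] 0) := by
      refine tendsto_nhdsWithin_iff.2 ⟨?_, ?_⟩
      · have : Tendsto (fun t : ℝ => ((t, t • e) : Pt d)) (𝓝 0) (𝓝 (0, (0 : ℝ) • e)) :=
          Continuous.tendsto (by fun_prop) 0
        rw [zero_smul] at this
        exact this.mono_left nhdsWithin_le_nhds
      · filter_upwards [Ioo_mem_nhdsGT (zero_lt_one' ℝ)] with t ht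
        refine subset_closure ⟨ht.1, ht.2, ?_⟩
        rw [norm_smul, hen, mul_one, Real.norm_eq_abs, abs_of_pos ht.1]
        exact ht.2
    obtain ⟨t, ht1, ht2⟩ := ((h1.eventually h).and self_mem_nhdsWithin).exists
    have ht3 : (0 : ℝ) < t := ht2
    simp only [vv] at ht1
    rw [norm_smul, hen, mul_one, Real.norm_eq_abs, abs_of_pos ht3] at ht1
    have : 0 < t ^ 2 * (t ^ 2 / (2 + t) ^ 3) := by positivity
    linarith

end Pool.Agent.Results.MP_4ba699_an.HopfVariantFails
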